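import Pool.Graph.R_seed8.Y840.SW.MVB
import Pool.Graph.R_seed8.Y179.LD.Z1
import Pool.Graph.R_seed8.Y210.LD.EFU
import Pool.Graph.R_seed8.Y290.LD.DFU
import Pool.Graph.R_seed8.Y363.LD.PW
import Pool.Graph.R_seed8.Y363.LD.ZL2
import Pool.Graph.R_seed8.Y447.LD.VMR
import Pool.Graph.R_seed8.Y448.LD.LOW
import Pool.Graph.R_seed8.Y627.SW.MN
import Pool.Graph.R_seed8.Y655.SW.Har
import Pool.Graph.R_seed8.Y655.SW.Trk
import Pool.Graph.R_seed8.Y665.LD.VMS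
import Pool.Graph.R_seed8.Y674.LD.Z3
import Pool.Graph.R_seed8.Y732.LD.VSM
import Pool.Graph.R_seed8.Y745.LD.VB5
import Pool.Graph.R_seed8.Y745.LD.Asm2
import Pool.Graph.R_seed8.Y745.LD.CNT2
import Pool.Graph.R_seed8.Y786.LD.KER2
import Pool.Graph.R_seed8.Y811.LD.VDQ
import Pool.Graph.R_seed8.Y833.SW.Di
import Pool.Graph.R_seed8.Y871.LD.COST
import Pool.Graph.R_seed8.Y931.LD.VM1
import Pool.Graph.R_seed8.Y949.LD.G2M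
import Pool.Graph.R_seed8.Y954.LD.DERV

set_option autoImplicit false

/-! Assembly of project LD of helper745 (large deviations of the derivative at simple zeros). -/

namespace Pool.Agent.H362.LD

open Filter Topology MeasureTheory Complex H370 Pool.Agent.Y745.SW Pool.Agent.Y745.LD

theorem vm1 : P_VM1 := Pool.Agent.Y931.LD.t_VM1 Pool.Agent.Y840.SW.t_MVB
theorem vms : P_VMS := Pool.Agent.Y665.LD.t_VMS Pool.Agent.Y840.SW.t_MVB vm1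
theorem vmt : P_VMT := Pool.Agent.Y665.LD.t_VMT Pool.Agent.Y840.SW.t_MVB vm1
theorem vmr : P_VMR := Pool.Agent.Y447.LD.t_VMR Pool.Agent.Y840.SW.t_MVB
theorem zl2 : P_ZL2 := Pool.Agent.Y363.LD.t_ZL2 Pool.Agent.Y840.SW.t_MVB vm1 vmr vms
  Pool.Agent.Y179.LD.t_Z1
theorem vsm : P_VSM := Pool.Agent.Y732.LD.t_VSM vmr vms Pool.Agent.Y210.LD.t_EFU

theorem vblk' : P_VBLK := vblk Pool.Agent.Y833.SW.t_DI Pool.Agent.Y655.SW.t_TRK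
  Pool.Agent.Y627.SW.t_MN good_zeta Pool.Agent.Y786.LD.t_KER2 Pool.Agent.Y290.LD.t_DFU
  (Pool.Agent.Y811.LD.t_VDQ vmr) Pool.Agent.Y210.LD.t_EFU vsm (t_CNT2 vsm)
  Pool.Agent.Y871.LD.t_COST

theorem low (hG1M : P_G1M) : P_LOW := Pool.Agent.Y448.LD.t_LOW vm1 vmt Pool.Agent.Y363.LD.t_PW
  Pool.Agent.Y949.LD.t_G2M0 hG1M zl2 Pool.Agent.Y674.LD.t_Z3

theorem derv (hG1M : P_G1M) (hZUP : P_ZUP) : P_DERV := Pool.Agent.Y954.LD.t_DERV vm1 vmt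
  Pool.Agent.Y363.LD.t_PW (low hG1M) hZUP Pool.Agent.Y655.SW.t_HAR

open Classical in
theorem count (hG1M : P_G1M) (hZUP : P_ZUP) :
    ∃ δ : ℝ, 0 < δ ∧ δ ≤ 1 / 10 ∧ ∀ κ ε : ℝ, 0 < ε → ∀ᶠ T : ℝ in atTop,
    ∃ U1 U2 : ℝ, T ≤ U1 ∧ U1 ≤ T + 1 ∧ 2 * T - 1 ≤ U2 ∧ U2 ≤ 2 * T ∧
    T * Real.log T ^ (1 - κ ^ 2 - ε) ≤
      (((isoS U1 U2 (δ / Real.log T)).filter (fun s => T + 2 ≤ s.im ∧ s.im ≤ 2 * T - 2 ∧
        |Real.log ‖deriv riemannZeta s‖ - (1 + κ) * LL T| ≤ ε * LL T)).card : ℝ) :=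
  ld_count vblk' (derv hG1M hZUP) hG1M Pool.Agent.Y949.LD.t_G2M0 vm1 vmt
    Pool.Agent.Y363.LD.t_PW

end Pool.Agent.H362.LD
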