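import Pool.Agent.H362.LD.Ew
import Pool.Graph.R_seed8.W354.ZP.Num

set_option autoImplicit false

/-! Exceptional windows: the statement of project EW in plain terms, uniformly in the exponent. -/

namespace Pool.Agent.H362.LD

open Filter Topology MeasureTheory Complex H370 Pool.Agent.Y745.SW Pool.Agent.Y745.LD Pool.Agent.Y745.EW

/-- the simple zeros on the critical line with ordinate in `[t - r, t + r]`, at distance at least
`d / log T` from every other nontrivial zero, at which `|ζ'|` is between `(log T) ^ (1 + κ ∓ ε)` -/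
def Gd (d κ ε T r t : ℝ) : Set ℂ := {s : ℂ | riemannZeta s = 0 ∧ s.re = 1 / 2 ∧ |s.im - t| ≤ r ∧
  deriv riemannZeta s ≠ 0 ∧
  (∀ ρ : ℂ, riemannZeta ρ = 0 → 0 < ρ.re → ρ.re < 1 → ρ ≠ s → d / Real.log T ≤ ‖ρ - s‖) ∧
  Real.log T ^ (1 + κ - ε) ≤ ‖deriv riemannZeta s‖ ∧ ‖deriv riemannZeta s‖ ≤ Real.log T ^ (1 + κ + ε)}

/-- the number of all nontrivial zeros with ordinate in `[t - r, t + r]`, with multiplicity -/
noncomputable def Ct (r t : ℝ) : ℕ :=
  ∑ᶠ s ∈ {s : ℂ | riemannZeta s = 0 ∧ 0 < s.re ∧ s.re < 1 ∧ |s.im - t| ≤ r}, analyticOrderNatAt riemannZeta s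

lemma Gd_mono {d κ κ' ε ε' T r t : ℝ} (hT : 1 ≤ Real.log T) (h1 : κ - ε ≤ κ' - ε') (h2 : κ' + ε' ≤ κ + ε) :
    Gd d κ' ε' T r t ⊆ Gd d κ ε T r t := by
  rintro s ⟨a1, a2, a3, a4, a5, a6, a7⟩
  refine ⟨a1, a2, a3, a4, a5, le_trans ?_ a6, a7.trans ?_⟩
  · exact Real.rpow_le_rpow_of_exponent_le hT (by linarith)
  · exact Real.rpow_le_rpow_of_exponent_le hT (by linarith)

lemma Gd_finite {d κ ε T r t : ℝ} (hrt : r < t) : (Gd d κ ε T r t).Finite := by
  refine (H370.zeta_zeros_finite (t + r)).subset fun s hs => ?_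
  obtain ⟨h1, h2, h3, -⟩ := hs
  have h3 := abs_le.1 h3
  exact ⟨by rw [h2]; norm_num, by rw [h2]; norm_num, by linarith [h3.1], by linarith [h3.2], h1⟩

/-- finitely many exponents suffice -/
lemma grid (A ε : ℝ) (hε : 0 < ε) : ∃ F : Finset ℝ, ∀ κ : ℝ, |κ| ≤ A → ∃ κ' ∈ F, |κ - κ'| ≤ ε / 2 ∧
    κ' ^ 2 ≤ κ ^ 2 + ε / 2 := by
  by_cases hA : A < 0
  · exact ⟨∅, fun κ hκ => absurd (hκ.trans_lt hA) (not_lt.2 (abs_nonneg _))⟩
  push Not at hA
  obtain ⟨η, hη⟩ : ∃ η : ℝ, η = min 1 (ε / (4 * (A + 1))) := ⟨_, rfl⟩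
  have hη0 : 0 < η := by
    rw [hη, lt_min_iff]
    exact ⟨one_pos, by positivity⟩
  have hη2 : η ≤ 1 := by rw [hη]; exact min_le_left _ _
  have hη1 : η * (4 * (A + 1)) ≤ ε := by
    have h1 : η ≤ ε / (4 * (A + 1)) := by rw [hη]; exact min_le_right _ _
    rwa [le_div_iff₀ (by positivity)] at h1
  obtain ⟨N, hN⟩ := exists_nat_ge (A / η + 1)
  refine ⟨(Finset.Icc (-(N:ℤ)) N).image (fun j : ℤ => (j:ℝ) * η), fun κ hκ => ?_⟩
  have hκ' := abs_le.1 hκ
  obtain ⟨j, hj⟩ : ∃ j : ℤ, j = ⌊κ / η⌋ := ⟨_, rfl⟩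
  have hj1 : (j:ℝ) * η ≤ κ := by
    have := Int.floor_le (κ / η)
    rw [← hj] at this
    rwa [le_div_iff₀ hη0] at this
  have hj2 : κ < ((j:ℝ) + 1) * η := by
    have := Int.lt_floor_add_one (κ / η)
    rw [← hj] at this
    rwa [div_lt_iff₀ hη0] at this
  have hmem : j ∈ Finset.Icc (-(N:ℤ)) N := by
    rw [Finset.mem_Icc]
    have hA' : A = A / η * η := by field_simp
    constructor
    · have h2 : (-(N:ℝ)) ≤ j := by
        by_contra hc
        push Not at hc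
        have h3 : ((j:ℝ) + 1) * η ≤ (-(A / η)) * η := mul_le_mul_of_nonneg_right (by linarith) hη0.le
        linarith
      exact_mod_cast h2
    · have h2 : (j:ℝ) ≤ N := by
        by_contra hc
        push Not at hc
        have h3 : (A / η + 1) * η ≤ (j:ℝ) * η := mul_le_mul_of_nonneg_right (by linarith) hη0.le
        linarith
      exact_mod_cast h2
  refine ⟨(j:ℝ) * η, Finset.mem_image.2 ⟨j, hmem, rfl⟩, ?_⟩
  have hj2' : κ < (j:ℝ) * η + η := by linarith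
  generalize (j:ℝ) * η = κ' at hj1 hj2'
  have hηε : η ≤ ε / 4 := by nlinarith
  have h3 : |κ - κ'| ≤ η := by rw [abs_le]; constructor <;> linarith
  refine ⟨by linarith, ?_⟩
  have e : κ' ^ 2 - κ ^ 2 = (κ' - κ) * (κ' + κ) := by ring
  have h5 : |κ' + κ| ≤ 2 * A + η := by
    rw [abs_le]; constructor <;> linarith
  have h6 : (κ' - κ) * (κ' + κ) ≤ η * (2 * A + η) := by
    calc (κ' - κ) * (κ' + κ) ≤ |(κ' - κ) * (κ' + κ)| := le_abs_self _
      _ = |κ - κ'| * |κ' + κ| := by rw [abs_mul, abs_sub_comm]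
      _ ≤ _ := mul_le_mul h3 h5 (abs_nonneg _) hη0.le
  have : η * (2 * A + η) ≤ η * (2 * A + 1) := by gcongr
  nlinarith

/-- the points of the critical line at which zeta vanishes -/
lemma line_countable : {t : ℝ | riemannZeta (1 / 2 + t * I) = 0}.Countable := by
  have hinj : Function.Injective fun t : ℝ => (1 / 2 + t * I : ℂ) := by
    intro a b hab
    have := congrArg Complex.im hab
    simpa using this
  refine Set.Countable.preimage_of_injOn (f := fun t : ℝ => (1 / 2 + t * I : ℂ)) (s := {s : ℂ | riemannZeta s = 0})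
    zeros_countable hinj.injOn

/-- the conclusion at one `κ` -/
theorem ew1 : ∀ ε : ℝ, 0 < ε → ε ≤ 1 / 2 → ∃ d : ℝ, 0 < d ∧ ∀ κ : ℝ, ∃ e : ℝ, 0 < e ∧ ∀ᶠ T : ℝ in atTop,
    ∃ (r : ℝ) (E : Set ℝ), Real.log T ^ (e - 1) ≤ r ∧ r ≤ Real.log T ^ (ε - 1) ∧ MeasurableSet E ∧
      E ⊆ Set.Icc T (2 * T) ∧ T * Real.log T ^ (-κ ^ 2 - ε) ≤ volume.real E ∧ ∀ t ∈ E, r < t ∧
        Real.log T ^ (κ - ε) ≤ ‖riemannZeta (1 / 2 + t * I)‖ ∧ ‖riemannZeta (1 / 2 + t * I)‖ ≤ Real.log T ^ (κ + ε) ∧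
        (2 - cMTinv - ε) * (r * Real.log T / Real.pi) ≤ ((Gd d κ ε T r t).ncard : ℝ) ∧
        (2 - cMTinv - ε) * (Ct r t : ℝ) ≤ ((Gd d κ ε T r t).ncard : ℝ) := by
  classical
  intro ε hε hε1
  obtain ⟨δ, hδ, hδ1, h⟩ := ew ε hε hε1
  refine ⟨δ, hδ, fun κ => ?_⟩
  obtain ⟨e, he, h⟩ := h κ
  refine ⟨e, he, ?_⟩
  filter_upwards [h, eventually_ge_atTop 10, Real.tendsto_log_atTop.eventually_ge_atTop 1] with T hT hT1 hL1
  obtain ⟨U1, U2, r, E, hU1, hU1', hU2, hU2', hr1, hr2, hE, hEs, hEv, hEt⟩ := hT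
  set L := Real.log T with hL
  have hT0 : 0 < T := by linarith
  have hL0 : 0 < L := by linarith
  have hr0 : 0 < r := (Real.rpow_pos_of_pos hL0 _).trans_le hr1
  have hr3 : r ≤ 1 := hr2.trans (Real.rpow_le_one_of_one_le_of_nonpos hL1 (by linarith))
  have hc1 := cMTinv_gt_one
  have hc2 := Pool.Agent.W354.ZP.cMTinv_sharp
  have hLL : LL T = Real.log L := rfl
  have hzc := line_countable
  refine ⟨r, E \ {t : ℝ | riemannZeta (1 / 2 + t * I) = 0}, hr1, hr2, hE.diff hzc.measurableSet, ?_, ?_, ?_⟩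
  · intro t ht
    have := hEs ht.1
    exact ⟨by linarith [this.1], by linarith [this.2]⟩
  · have : volume.real (E \ {t : ℝ | riemannZeta (1 / 2 + t * I) = 0}) = volume.real E := by
      unfold Measure.real
      rw [measure_sdiff_null (hzc.measure_zero volume)]
    rw [this]
    exact hEv
  · rintro t ⟨ht, htz⟩
    have htz : riemannZeta (1 / 2 + t * I) ≠ 0 := htz
    obtain ⟨h1, h2, h3⟩ := hEt t ht
    have htE := hEs ht
    have hzp : 0 < ‖riemannZeta (1 / 2 + t * I)‖ := norm_pos_iff.2 htz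
    rw [hLL] at h1
    have h1' := abs_le.1 h1
    set S := ((isoS U1 U2 (δ / L)).filter (fun s =>
          |Real.log ‖deriv riemannZeta s‖ - (1 + κ) * LL T| ≤ ε * LL T)).filter
            (fun s => |s.im - t| ≤ r) with hS
    have hsub : ((S : Finset ℂ) : Set ℂ) ⊆ Gd δ κ ε T r t := by
      intro s hs
      rw [Finset.mem_coe, hS, Finset.mem_filter, Finset.mem_filter] at hs
      obtain ⟨⟨hsI, hs3⟩, hs4⟩ := hs
      have hs4' := abs_le.1 hs4
      have hs1 : T + 2 ≤ s.im := by linarith [htE.1, hs4'.1]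
      have hs2 : s.im ≤ 2 * T - 2 := by linarith [htE.2, hs4'.2]
      unfold isoS at hsI
      rw [Finset.mem_filter] at hsI
      obtain ⟨hsZ, hre, hmul, hiso⟩ := hsI
      have hsz := (mem_Zf good_zeta (by linarith : 1 ≤ U1)).mp hsZ
      have hs0 : riemannZeta s = 0 := hsz.2.2.2.2
      have hsne : s ≠ 1 := by
        intro h1
        rw [h1] at hre
        norm_num at hre
      have hd : deriv riemannZeta s ≠ 0 := Pool.Agent.Y141.SW.deriv_ne_of_simple hsne hs0 hmul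
      have hdp : 0 < ‖deriv riemannZeta s‖ := norm_pos_iff.2 hd
      have h3 := abs_le.1 hs3
      rw [hLL] at h3
      refine ⟨hs0, hre, hs4, hd, ?_, ?_, ?_⟩
      · intro s' h2 h3 h4 h5
        by_contra hcon
        push Not at hcon
        have h6 : δ / L ≤ 1 := by rw [div_le_one hL0]; linarith
        have h7 : ‖s' - s‖ < 1 := by linarith
        have h8 := (Complex.abs_im_le_norm _).trans_lt h7
        rw [Complex.sub_im, abs_lt] at h8
        have h9 : s' ∈ Zf riemannZeta U1 U2 :=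
          (mem_Zf good_zeta (by linarith : 1 ≤ U1)).mpr ⟨h3, h4, by linarith [h8.1], by linarith [h8.2], h2⟩
        have h10 := hiso s' h9 h5
        rw [norm_sub_rev] at h10
        linarith
      · rw [← Real.log_le_log_iff (Real.rpow_pos_of_pos hL0 _) hdp, Real.log_rpow hL0]
        linarith [h3.1]
      · rw [← Real.log_le_log_iff hdp (Real.rpow_pos_of_pos hL0 _), Real.log_rpow hL0]
        linarith [h3.2]
    have hrt : r < t := by linarith [htE.1]
    have hcard : (S.card : ℝ) ≤ ((Gd δ κ ε T r t).ncard : ℝ) := by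
      rw [← Set.ncard_coe_finset]
      exact_mod_cast Set.ncard_le_ncard hsub (Gd_finite hrt)
    have hct : (Ct r t : ℝ) = nz U1 U2 (t - r) (t + r) := by
      unfold Ct nz
      have hset : {s : ℂ | riemannZeta s = 0 ∧ 0 < s.re ∧ s.re < 1 ∧ |s.im - t| ≤ r} =
          (((Zf riemannZeta U1 U2).filter (fun s => t - r ≤ s.im ∧ s.im ≤ t + r) : Finset ℂ) : Set ℂ) := by
        ext s
        rw [Finset.mem_coe, Finset.mem_filter, mem_Zf good_zeta (by linarith : 1 ≤ U1)]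
        constructor
        · rintro ⟨a1, a2, a3, a4⟩
          have a4 := abs_le.1 a4
          exact ⟨⟨a2, a3, by linarith [htE.1, a4.1], by linarith [htE.2, a4.2], a1⟩, by linarith [a4.1], by linarith [a4.2]⟩
        · rintro ⟨⟨a2, a3, a5, a6, a1⟩, a7, a8⟩
          exact ⟨a1, a2, a3, abs_le.2 ⟨by linarith, by linarith⟩⟩
      rw [hset, finsum_mem_coe_finset]
      push_cast
      rfl
    refine ⟨hrt, ?_, ?_, h2.trans hcard, ?_⟩
    · rw [← Real.log_le_log_iff (Real.rpow_pos_of_pos hL0 _) hzp, Real.log_rpow hL0]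
      linarith [h1'.1]
    · rw [← Real.log_le_log_iff hzp (Real.rpow_pos_of_pos hL0 _), Real.log_rpow hL0]
      linarith [h1'.2]
    · rw [hct]
      set p : ℝ := 2 - cMTinv - ε with hp
      have hp0 : 0 < p := by rw [hp]; linarith
      have hp1 : 0 < 1 - p := by rw [hp]; linarith
      set X : ℝ := r * L / Real.pi with hX
      set G : ℝ := ((Gd δ κ ε T r t).ncard : ℝ) with hG
      have h4 : nz U1 U2 (t - r) (t + r) ≤ G + (1 - p) * X := h3.trans (by linarith)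
      have h5 : p * X ≤ G := h2.trans hcard
      have h6 : p * nz U1 U2 (t - r) (t + r) ≤ p * (G + (1 - p) * X) := mul_le_mul_of_nonneg_left h4 hp0.le
      have h7 : (1 - p) * (p * X) ≤ (1 - p) * G := mul_le_mul_of_nonneg_left h5 hp1.le
      nlinarith

/-- uniformly for bounded `κ` -/
theorem ew2 : ∀ ε : ℝ, 0 < ε → ε ≤ 1 / 2 → ∃ d : ℝ, 0 < d ∧ ∀ A : ℝ, ∃ e : ℝ, 0 < e ∧ ∀ᶠ T : ℝ in atTop,
    ∀ κ : ℝ, |κ| ≤ A →
    ∃ (r : ℝ) (E : Set ℝ), Real.log T ^ (e - 1) ≤ r ∧ r ≤ Real.log T ^ (ε - 1) ∧ MeasurableSet E ∧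
      E ⊆ Set.Icc T (2 * T) ∧ T * Real.log T ^ (-κ ^ 2 - ε) ≤ volume.real E ∧ ∀ t ∈ E, r < t ∧
        Real.log T ^ (κ - ε) ≤ ‖riemannZeta (1 / 2 + t * I)‖ ∧ ‖riemannZeta (1 / 2 + t * I)‖ ≤ Real.log T ^ (κ + ε) ∧
        (2 - cMTinv - ε) * (r * Real.log T / Real.pi) ≤ ((Gd d κ ε T r t).ncard : ℝ) ∧
        (2 - cMTinv - ε) * (Ct r t : ℝ) ≤ ((Gd d κ ε T r t).ncard : ℝ) := by
  classical
  intro ε hε hε1
  obtain ⟨d, hd, h⟩ := ew1 (ε / 2) (by positivity) (by linarith)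
  refine ⟨d, hd, fun A => ?_⟩
  choose e he hev using h
  obtain ⟨F, hF⟩ := grid A ε hε
  obtain ⟨e0, he0, he1⟩ : ∃ e0 : ℝ, 0 < e0 ∧ ∀ κ ∈ F, e0 ≤ e κ := by
    by_cases hne : F.Nonempty
    · obtain ⟨m, hm, hmin⟩ := F.exists_min_image e hne
      exact ⟨e m, he m, hmin⟩
    · rw [Finset.not_nonempty_iff_eq_empty] at hne
      exact ⟨1, one_pos, by simp [hne]⟩
  refine ⟨e0, he0, ?_⟩
  have hall : ∀ᶠ T : ℝ in atTop, ∀ κ ∈ F, _ := (Filter.eventually_all_finset F).2 fun κ _ => hev κ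
  filter_upwards [hall, eventually_ge_atTop 10, Real.tendsto_log_atTop.eventually_ge_atTop 1]
    with T hT hT1 hL1 κ hκ
  obtain ⟨κ', hκ'F, hk1, hk2⟩ := hF κ hκ
  have hk1 := abs_le.1 hk1
  obtain ⟨r, E, hr1, hr2, hE, hEs, hEv, hEt⟩ := hT κ' hκ'F
  have hT0 : 0 < T := by linarith
  have hL0 : 0 < Real.log T := by linarith
  have hr0 : 0 < r := (Real.rpow_pos_of_pos hL0 _).trans_le hr1
  refine ⟨r, E, le_trans ?_ hr1, hr2.trans ?_, hE, hEs, le_trans ?_ hEv, fun t ht => ?_⟩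
  · exact Real.rpow_le_rpow_of_exponent_le hL1 (by linarith [he1 κ' hκ'F])
  · exact Real.rpow_le_rpow_of_exponent_le hL1 (by linarith)
  · refine mul_le_mul_of_nonneg_left ?_ hT0.le
    exact Real.rpow_le_rpow_of_exponent_le hL1 (by linarith)
  · obtain ⟨hrt, h1, h2, h3, h4⟩ := hEt t ht
    have hm : ((Gd d κ' (ε / 2) T r t).ncard : ℝ) ≤ ((Gd d κ ε T r t).ncard : ℝ) := by
      exact_mod_cast Set.ncard_le_ncard (Gd_mono hL1 (by linarith [hk1.2]) (by linarith [hk1.1])) (Gd_finite hrt)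
    refine ⟨hrt, le_trans ?_ h1, h2.trans ?_, le_trans ?_ (h3.trans hm), le_trans ?_ (h4.trans hm)⟩
    · exact Real.rpow_le_rpow_of_exponent_le hL1 (by linarith [hk1.2])
    · exact Real.rpow_le_rpow_of_exponent_le hL1 (by linarith [hk1.1])
    · refine mul_le_mul_of_nonneg_right (by linarith) ?_
      have := Real.pi_pos
      positivity
    · exact mul_le_mul_of_nonneg_right (by linarith) (Nat.cast_nonneg _)

end Pool.Agent.H362.LD
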