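import Pool.Agent.H362.LD.Dens
import Pool.Graph.R_seed8.Y745.LD.DefsB

set_option autoImplicit false

/-! The zeros near almost all heights are near the critical line (job G1M of project LD). -/

namespace Pool.Agent.H362.LD

open Filter Topology MeasureTheory Complex H370 Pool.Agent.Y745.SW Pool.Agent.Y745.LD

/-- the zeros of zeta are countable -/
lemma zeros_countable : {s : ℂ | riemannZeta s = 0}.Countable := by
  have h : IsDiscrete {s : ℂ | riemannZeta s = 0} := isDiscrete_riemannZetaZeros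
  have h2 : DiscreteTopology {s : ℂ | riemannZeta s = 0} := h.to_subtype
  exact (HereditarilyLindelofSpace.isLindelof _).countable h2

/-- the zeros of the strip that are far from the line -/
def badZ (D T : ℝ) : Set ℂ := {s : ℂ | riemannZeta s = 0 ∧ 0 < s.re ∧ s.re < 1 ∧
  D * LL T / Real.log T < |s.re - 1 / 2|}

lemma G1_compl (r D T : ℝ) : (G1 r D T)ᶜ = ⋃ s ∈ badZ D T, {t : ℝ | |s.im - t| ≤ r * Real.log T} := by
  ext t
  simp only [G1, badZ, Set.mem_compl_iff, Set.mem_setOf_eq, Set.mem_iUnion, exists_prop, not_forall,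
    not_le]
  constructor
  · rintro ⟨s, h1, h2, h3, h4, h5⟩
    exact ⟨s, ⟨h1, h2, h3, h5⟩, h4⟩
  · rintro ⟨s, ⟨h1, h2, h3, h5⟩, h4⟩
    exact ⟨s, h1, h2, h3, h4, h5⟩

lemma G1_meas (r D T : ℝ) : MeasurableSet (G1 r D T) := by
  rw [← MeasurableSet.compl_iff, G1_compl]
  refine MeasurableSet.biUnion (zeros_countable.mono fun s hs => hs.1) fun s _ => ?_
  have : IsClosed {t : ℝ | |s.im - t| ≤ r * Real.log T} :=
    isClosed_le (by fun_prop) continuous_const
  exact this.measurableSet

theorem t_G1M : P_G1M := by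
  classical
  intro r A' hr hA'
  obtain ⟨C, hC, hd⟩ := dens
  refine ⟨A' + 3, by positivity, fun D hD => ?_⟩
  have hlog := Real.tendsto_log_atTop
  have hlin : ∀ᶠ T : ℝ in atTop, (r * Real.log T + 2) * 1 ≤ T / 2 := by
    have h1 : (fun T : ℝ => r * Real.log T + 2) =o[atTop] fun T : ℝ => T := by
      refine (Real.isLittleO_log_id_atTop.const_mul_left r).add ?_
      rw [Asymptotics.isLittleO_const_left]
      right
      exact tendsto_norm_atTop_atTop.comp tendsto_id
    filter_upwards [h1.bound (show (0:ℝ) < 1 / 2 by norm_num), eventually_ge_atTop (0 : ℝ)]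
      with T hT hT0
    rw [Real.norm_eq_abs, Real.norm_eq_abs, abs_of_nonneg hT0] at hT
    linarith [(le_abs_self _).trans hT]
  filter_upwards [hlin, hlog.eventually_ge_atTop (max 1 (16 * r * C)), eventually_ge_atTop (10 : ℝ)]
    with T hT1 hT2 hT3
  refine ⟨G1_meas r D T, ?_⟩
  set L := Real.log T with hL
  have hL1 : 1 ≤ L := (le_max_left _ _).trans hT2
  have hL2 : 16 * r * C ≤ L := (le_max_right _ _).trans hT2
  have hL0 : 0 < L := by linarith
  have hT0 : 0 < T := by linarith
  set A : ℝ := T - r * L - 1 with hA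
  set B : ℝ := 2 * T + r * L with hB
  have hA1 : 1 ≤ A := by rw [hA]; linarith
  set F : Finset ℂ := (Zf riemannZeta A B).filter (fun s => D * LL T / L < |s.re - 1 / 2|) with hF
  -- covering
  have hsub : Set.Icc T (2 * T) \ G1 r D T ⊆ ⋃ s ∈ F, Set.Icc (s.im - r * L) (s.im + r * L) := by
    rintro t ⟨ht, htG⟩
    have h1 : t ∈ (G1 r D T)ᶜ := htG
    rw [G1_compl] at h1
    simp only [Set.mem_iUnion, exists_prop, Set.mem_setOf_eq] at h1
    obtain ⟨s, ⟨a1, a2, a3, a4⟩, a5⟩ := h1
    have a6 := abs_le.1 a5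
    simp only [Set.mem_iUnion, exists_prop]
    refine ⟨s, ?_, ?_⟩
    · rw [hF, Finset.mem_filter, mem_Zf good_zeta hA1]
      refine ⟨⟨a2, a3, ?_, ?_, a1⟩, a4⟩
      · rw [hA]; linarith [ht.1, a6.1]
      · rw [hB]; linarith [ht.2, a6.2]
    · constructor <;> linarith [a6.1, a6.2]
  have hvol : volume.real (Set.Icc T (2 * T) \ G1 r D T) ≤ F.card * (2 * (r * L)) := by
    have hfin : volume (⋃ s ∈ F, Set.Icc (s.im - r * L) (s.im + r * L)) ≠ ⊤ := by
      refine ne_of_lt (lt_of_le_of_lt (measure_biUnion_finset_le F _) ?_)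
      rw [ENNReal.sum_lt_top]
      intro s _
      rw [Real.volume_Icc]
      exact ENNReal.ofReal_lt_top
    refine (measureReal_mono hsub hfin).trans ((measureReal_biUnion_finset_le F _).trans ?_)
    rw [← nsmul_eq_mul]
    refine Finset.sum_le_card_nsmul F _ _ fun s _ => ?_
    rw [Real.volume_real_Icc_of_le (by nlinarith)]
    linarith
  -- the number of bad zeros
  have hcard : (F.card : ℝ) * L ^ D ≤ C * (2 * T * Real.log (2 * T)) := by
    have h1 := hd (2 * T) A B L (by linarith) hA1 (by rw [hB]; linarith)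
      (Real.log_le_log hT0 (by linarith))
    refine le_trans ?_ h1
    rw [← nsmul_eq_mul]
    have h2 : F ⊆ Zf riemannZeta A B := Finset.filter_subset _ _
    refine le_trans ?_ (Finset.sum_le_sum_of_subset_of_nonneg h2 fun s _ _ => ?_)
    · refine Finset.card_nsmul_le_sum F _ _ fun s hs => ?_
      rw [hF, Finset.mem_filter, mem_Zf good_zeta hA1] at hs
      obtain ⟨⟨a1, a2, a3, a4, a5⟩, a6⟩ := hs
      have h3 : (1 : ℝ) ≤ mult riemannZeta s := by
        exact_mod_cast H370.Loc.mult_pos' good_zeta (by linarith) a5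
      have h4 : 1 ≤ (1 + Real.log (2 * T) * |s.re - 1 / 2|) ^ 2 := by
        have : 0 ≤ Real.log (2 * T) * |s.re - 1 / 2| :=
          mul_nonneg (Real.log_nonneg (by linarith)) (abs_nonneg _)
        nlinarith
      have h5 : L ^ D ≤ Real.exp (L * |s.re - 1 / 2|) := by
        rw [Real.rpow_def_of_pos hL0, Real.exp_le_exp]
        have h6 : D * LL T ≤ L * |s.re - 1 / 2| := by
          rw [div_lt_iff₀ hL0] at a6
          linarith
        have h7 : LL T = Real.log L := rfl
        rw [h7] at h6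
        linarith
      calc L ^ D ≤ 1 * (1 * Real.exp (L * |s.re - 1 / 2|)) := by linarith
        _ ≤ _ := by gcongr
    · positivity
  have hlog2 : Real.log (2 * T) ≤ 2 * L := by
    rw [Real.log_mul (by norm_num) hT0.ne']
    have : Real.log 2 ≤ Real.log T := Real.log_le_log (by norm_num) (by linarith)
    linarith
  refine hvol.trans ?_
  have hLA : 0 < L ^ A' := Real.rpow_pos_of_pos hL0 _
  have hLD : L ^ (A' + 3) ≤ L ^ D := Real.rpow_le_rpow_of_exponent_le hL1 hD
  have e3 : L ^ (A' + 3) = L ^ A' * L ^ 3 := by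
    rw [Real.rpow_add hL0]
    norm_cast
  rw [le_div_iff₀ hLA]
  have hF0 : (0:ℝ) ≤ F.card := Nat.cast_nonneg _
  have h8 : (F.card : ℝ) * (L ^ A' * L ^ 3) ≤ C * (2 * T * (2 * L)) := by
    rw [← e3]
    calc (F.card : ℝ) * L ^ (A' + 3) ≤ F.card * L ^ D := by gcongr
      _ ≤ C * (2 * T * Real.log (2 * T)) := hcard
      _ ≤ _ := by gcongr
  -- multiply by `2 r / L^2`
  have h9 : (F.card : ℝ) * (2 * (r * L)) * L ^ A' * L ^ 2 ≤ T * L ^ 2 := by
    calc (F.card : ℝ) * (2 * (r * L)) * L ^ A' * L ^ 2 = 2 * r * (F.card * (L ^ A' * L ^ 3)) := by ring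
      _ ≤ 2 * r * (C * (2 * T * (2 * L))) := by gcongr
      _ = (8 * r * C) * (T * L) := by ring
      _ ≤ L * (T * L) := by
        have : 8 * r * C ≤ L := by
          have : 0 < r * C := by positivity
          linarith
        gcongr
      _ = _ := by ring
  exact le_of_mul_le_mul_right h9 (by positivity)

end Pool.Agent.H362.LD
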