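import Pool.Agent.H362.LD.Stm

set_option autoImplicit false

/-! MOM: the first moment of zeta on the lines near the critical line (helper627 for helper362). -/

namespace Pool.Agent.H362.LD

open MeasureTheory Filter Topology Set Metric Pool.Agent.H306R2 Pool.Agent.W184 Pool.Agent.W354.ZP

namespace MOMX

lemma V0 (c A T t : ℝ) : Pool.Agent.Y745.LD.V 0 c A T t = 1 := by
  unfold Pool.Agent.Y745.LD.V Pool.Agent.Y745.LD.Qk Pool.Agent.Y745.LD.tex
  rw [Finset.sum_range_succ']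
  simp

/-- the second moment on the critical line -/
lemma sm : ∃ T0 : ℝ, 1 ≤ T0 ∧ ∀ T : ℝ, T0 ≤ T →
    ∫ t in T..(2 * T), zn (1 / 2) t ^ 2 ≤ T * Real.log T ^ 2 := by
  obtain ⟨A0, hA⟩ := Pool.Agent.Y674.LD.t_Z3 0 (1 / 2) (by norm_num) (by norm_num)
  obtain ⟨T0, h0⟩ := eventually_atTop.1 (hA A0 le_rfl 1 one_pos)
  refine ⟨max T0 1, le_max_right _ _, fun T hT => ?_⟩
  have h1 := h0 T ((le_max_left _ _).trans hT)
  simp only [V0, one_mul, mul_zero, zero_pow (two_ne_zero), add_zero, zero_mul, Real.exp_zero, mul_one] at h1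
  have e1 : Real.log T ^ ((1:ℝ) + 1) = Real.log T ^ 2 := by
    rw [show ((1:ℝ) + 1) = ((2:ℕ):ℝ) by norm_num, Real.rpow_natCast]
  rw [e1] at h1
  have e2 : ∀ t : ℝ, zn (1 / 2) t ^ 2 = ‖riemannZeta (1 / 2 + t * Complex.I)‖ ^ 2 := by
    intro t
    unfold zn
    push_cast
    rfl
  simp_rw [e2]
  exact h1

lemma zn2_cont : Continuous fun t => zn (1 / 2) t ^ 2 := (zn_cont (by norm_num)).pow 2

/-- the second moment from zero -/
lemma dy : ∃ C T0 : ℝ, 0 ≤ C ∧ 1 ≤ T0 ∧ ∀ X : ℝ, T0 ≤ X →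
    ∫ t in (0:ℝ)..X, zn (1 / 2) t ^ 2 ≤ C + X * Real.log X ^ 2 := by
  obtain ⟨T0, h0, h1⟩ := sm
  have hc := zn2_cont
  refine ⟨∫ t in (0:ℝ)..(2 * T0), zn (1 / 2) t ^ 2, T0,
    intervalIntegral.integral_nonneg (by linarith) fun x _ => sq_nonneg _, h0, ?_⟩
  have base : ∀ X : ℝ, T0 ≤ X → X ≤ 2 * T0 → ∫ t in (0:ℝ)..X, zn (1 / 2) t ^ 2 ≤
      (∫ t in (0:ℝ)..(2 * T0), zn (1 / 2) t ^ 2) + X * Real.log X ^ 2 := by
    intro X hX hX2
    have e1 : ∫ t in (0:ℝ)..X, zn (1 / 2) t ^ 2 ≤ ∫ t in (0:ℝ)..(2 * T0), zn (1 / 2) t ^ 2 :=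
      intervalIntegral.integral_mono_interval le_rfl (by linarith) hX2
        (ae_of_all _ fun t => sq_nonneg _) (hc.intervalIntegrable _ _)
    have e2 : 0 ≤ X * Real.log X ^ 2 := mul_nonneg (by linarith) (sq_nonneg _)
    linarith
  have key : ∀ n : ℕ, ∀ X : ℝ, T0 ≤ X → X ≤ 2 ^ n * (2 * T0) → ∫ t in (0:ℝ)..X, zn (1 / 2) t ^ 2 ≤
      (∫ t in (0:ℝ)..(2 * T0), zn (1 / 2) t ^ 2) + X * Real.log X ^ 2 := by
    intro n
    induction n with
    | zero =>
      intro X hX hX2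
      rw [pow_zero, one_mul] at hX2
      exact base X hX hX2
    | succ n ih =>
      intro X hX hX2
      rcases le_or_gt X (2 * T0) with h | h
      · exact base X hX h
      have e1 := ih (X / 2) (by linarith) (by rw [pow_succ] at hX2; linarith)
      have e2 := h1 (X / 2) (by linarith)
      rw [show 2 * (X / 2) = X by ring] at e2
      have e3 := intervalIntegral.integral_add_adjacent_intervals (hc.intervalIntegrable (0:ℝ) (X / 2))
        (hc.intervalIntegrable (μ := volume) (X / 2) X)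
      rw [← e3]
      have e4 : Real.log (X / 2) ^ 2 ≤ Real.log X ^ 2 :=
        pow_le_pow_left₀ (Real.log_nonneg (by linarith))
          (Real.log_le_log (by linarith) (by linarith)) 2
      have e5 := mul_le_mul_of_nonneg_left e4 (show 0 ≤ X / 2 by linarith)
      linarith
  intro X hX
  obtain ⟨n, hn⟩ := pow_unbounded_of_one_lt X (show (1:ℝ) < 2 by norm_num)
  refine key n X hX ?_
  have : (0:ℝ) < 2 ^ n := by positivity
  nlinarith

/-- the first moment on the line -/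
lemma fm : ∃ C T0 : ℝ, 0 ≤ C ∧ 1 ≤ T0 ∧ ∀ X : ℝ, T0 ≤ X →
    ∫ t in (0:ℝ)..X, zn (1 / 2) t ≤ C + X + X * Real.log X ^ 2 := by
  obtain ⟨C, T0, hC, h0, h1⟩ := dy
  refine ⟨C, T0, hC, h0, fun X hX => ?_⟩
  have hc : Continuous (zn (1 / 2)) := zn_cont (by norm_num)
  have e1 : ∫ t in (0:ℝ)..X, zn (1 / 2) t ≤ ∫ t in (0:ℝ)..X, (1 + zn (1 / 2) t ^ 2) := by
    refine intervalIntegral.integral_mono_on (by linarith) (hc.intervalIntegrable _ _)
      ((continuous_const.add zn2_cont).intervalIntegrable _ _) fun x _ => ?_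
    nlinarith [sq_nonneg (zn (1 / 2) x - 1 / 2)]
  rw [intervalIntegral.integral_add intervalIntegrable_const (zn2_cont.intervalIntegrable _ _),
    intervalIntegral.integral_const, smul_eq_mul] at e1
  have e2 := h1 X hX
  linarith

/-- right of the line -/
lemma mright : ∃ C : ℝ, 0 ≤ C ∧ ∀ᶠ T : ℝ in atTop, ∀ Δ : ℝ, T ^ (-(3:ℝ)) ≤ Δ → Δ ≤ 1 / 200 →
    ∫ t in (0:ℝ)..T, zn (1 / 2 + Δ) t ≤ 2 * (C + 75 * T + T * Real.log T ^ 2) := by
  obtain ⟨C, T0, hC, h0, hJ⟩ := fm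
  refine ⟨C, hC, ?_⟩
  have ht := tail_ev (5 - 29 / 4) 0 (24 * (2 * Real.pi)) (by norm_num)
  filter_upwards [ht, eventually_gt_atTop 1, eventually_ge_atTop T0] with T ht hT1 hTT Δ hΔ hΔ1
  have hT0 : 0 < T := by linarith
  have hΔ0 : 0 < Δ := lt_of_lt_of_le (Real.rpow_pos_of_pos hT0 _) hΔ
  have hJ := hJ T hTT
  have hGB : ∀ x, qn (fun _ => 0) 1 (1 / 2) x ≤ 12 * (1 + |x|) := by
    intro x
    rw [qn_zero]
    exact zp_le (x := x) one_pos le_rfl (σ := 1 / 2) (by norm_num) (by norm_num)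
  have hE : (∫ t in (-(T ^ ((1:ℝ)/4)))..0, qn (fun _ => 0) 1 (1 / 2) t) +
    ∫ t in T..(T + T ^ ((1:ℝ)/4)), qn (fun _ => 0) 1 (1 / 2) t ≤ 72 * T := by
    simp_rw [qn_zero]
    exact edges_zp (p := 1) (σ := 1 / 2) one_pos le_rfl (by norm_num) (by norm_num) hT1.le
  have hM : ((16 : ℕ) : ℝ) * 1 = 16 := by norm_num
  have hmain := half_fix (Q := fun _ => 0) (C1 := 0) (C2 := 1 + ∑' n : ℕ, 1 / (n : ℝ) ^ 2) (T := T)
    one_pos le_rfl (show 1 ≤ 16 by norm_num) hM (differentiable_const _) (by simp)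
    (fun z hz => zeta_far hz) hΔ0 (by linarith) hT1.le (by norm_num) hGB hE
  simp_rw [qn_zero] at hmain
  simp only [Real.rpow_one] at hmain
  have hpi := Real.pi_pos
  have htail : T * (12 * (1 + T)) * (2 * Real.pi * (1 / Δ) *
      (T ^ ((1:ℝ)/4)) ^ (-(29:ℝ))) ≤ T := by
    have b2 : (T ^ ((1:ℝ)/4)) ^ (-(29:ℝ)) = T ^ (-(29/4:ℝ)) := by
      rw [← Real.rpow_mul hT0.le]; norm_num
    have b3 : T * (12 * (1 + T)) ≤ 24 * T ^ (2:ℝ) := by
      have : T ^ (2:ℝ) = T ^ 2 := by exact_mod_cast Real.rpow_natCast T 2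
      rw [this]
      nlinarith
    have b5 : 1 / Δ ≤ T ^ (3:ℝ) := by
      rw [Real.rpow_neg hT0.le] at hΔ
      rw [div_le_iff₀ hΔ0]
      have hT3 : 0 < T ^ (3:ℝ) := Real.rpow_pos_of_pos hT0 _
      have := mul_le_mul_of_nonneg_left hΔ hT3.le
      rwa [mul_inv_cancel₀ hT3.ne'] at this
    have b4 : T ^ (2:ℝ) * T ^ (3:ℝ) * T ^ (-(29/4:ℝ)) = T ^ (5 - 29 / 4 : ℝ) := by
      rw [← Real.rpow_add hT0, ← Real.rpow_add hT0]; congr 1; norm_num
    rw [b2]
    calc T * (12 * (1 + T)) * (2 * Real.pi * (1 / Δ) * T ^ (-(29/4:ℝ))) ≤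
        (24 * T ^ (2:ℝ)) * (2 * Real.pi * T ^ (3:ℝ) * T ^ (-(29/4:ℝ))) := by
          gcongr
      _ = 24 * (2 * Real.pi) * (T ^ (5 - 29 / 4 : ℝ) * Real.log T ^ (0:ℝ)) := by
          rw [← b4, Real.rpow_zero]; ring
      _ ≤ 1 := ht
      _ ≤ T := hT1.le
  have hfac : (1 / 2 : ℝ) ≤ (1 - 8 * Δ) * (1:ℝ) ^ Δ / (1 + Δ) ^ (2 * 16) := by
    rw [Real.one_rpow, mul_one, le_div_iff₀ (by positivity)]
    have h1 : (1 + Δ) ^ (2 * 16) ≤ (1 + 1 / 200) ^ (2 * 16) :=
      pow_le_pow_left₀ (by positivity) (by linarith) _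
    have h2 : ((1:ℝ) + 1 / 200) ^ (2 * 16) ≤ 19 / 10 := by norm_num
    linarith
  have hJ1n : 0 ≤ ∫ t in (0:ℝ)..T, zn (1 / 2 + Δ) t :=
    intervalIntegral.integral_nonneg hT0.le fun x _ => zn_nonneg _ _
  have h10 := mul_le_mul_of_nonneg_right hfac hJ1n
  have h11 := h10.trans hmain
  linarith

end MOMX

open MOMX in
theorem t_MOM : S_MOM := by
  obtain ⟨C, hC, hR⟩ := mright
  have hE10 := Real.exp_pos 10
  filter_upwards [hR, eventually_gt_atTop 1, eventually_ge_atTop C,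
    sqrtlog_ev (2000 + Real.exp 10 * 2154)] with T hR hT1 hTC hlog σ h1 h2
  have hT0 : 0 < T := by linarith
  have hL0 : 2000 ≤ Real.log T := by nlinarith
  have hL1 : Real.exp 10 * 2154 ≤ Real.log T := by linarith
  have hLp : 0 < Real.log T := by linarith
  have hLsq : 1 ≤ Real.log T ^ 2 := one_le_pow₀ (by linarith)
  have hTL : T ≤ T * Real.log T ^ 2 := le_mul_of_one_le_right hT0.le hLsq
  have hTLn : 0 ≤ T * Real.log T ^ 2 := by positivity
  have hfin : Real.exp 10 * (2154 * (T * Real.log T ^ 2)) ≤ T * Real.log T ^ 3 := by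
    have := mul_le_mul_of_nonneg_right hL1 hTLn
    calc Real.exp 10 * (2154 * (T * Real.log T ^ 2)) = Real.exp 10 * 2154 * (T * Real.log T ^ 2) := by ring
      _ ≤ Real.log T * (T * Real.log T ^ 2) := this
      _ = _ := by ring
  have hsm : 10 / Real.log T ≤ 1 / 200 := by
    rw [div_le_div_iff₀ hLp (by norm_num)]; linarith
  have he1 : 1 ≤ Real.exp 10 := Real.one_le_exp (by norm_num)
  rcases le_total (1 / 2) σ with h | h
  · rw [abs_of_nonneg (by linarith)] at h1 h2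
    have h3 := hR (σ - 1 / 2) h1 (h2.trans hsm)
    rw [show 1 / 2 + (σ - 1 / 2) = σ by ring] at h3
    refine h3.trans (le_trans ?_ hfin)
    have h4 : 2 * (C + 75 * T + T * Real.log T ^ 2) ≤ 2154 * (T * Real.log T ^ 2) := by linarith
    have h5 : 0 ≤ 2154 * (T * Real.log T ^ 2) := by positivity
    have h6 := le_mul_of_one_le_left h5 he1
    linarith
  · rw [abs_of_nonpos (by linarith)] at h1 h2
    obtain ⟨Δ, hΔd⟩ : ∃ Δ, Δ = -(σ - 1 / 2) := ⟨_, rfl⟩
    have hσ : σ = 1 / 2 - Δ := by rw [hΔd]; ring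
    rw [← hΔd] at h1 h2
    rw [hσ]
    have hΔ0 : 0 < Δ := lt_of_lt_of_le (Real.rpow_pos_of_pos hT0 _) h1
    have hΔ2 : Δ ≤ 1 / 200 := h2.trans hsm
    have h3 := hR Δ h1 hΔ2
    have hc1 : Continuous (zn (1 / 2 - Δ)) := zn_cont (by linarith)
    have hc2 : Continuous (zn (1 / 2 + Δ)) := zn_cont (by linarith)
    have hX : T ^ Δ ≤ Real.exp 10 := by
      rw [Real.rpow_def_of_pos hT0]
      refine Real.exp_le_exp.mpr ?_
      have := mul_le_mul_of_nonneg_left h2 hLp.le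
      rwa [mul_div_cancel₀ _ hLp.ne'] at this
    have h5 : ∫ t in (0:ℝ)..T, zn (1 / 2 - Δ) t ≤
        ∫ t in (0:ℝ)..T, Real.exp 10 * (zn (1 / 2 + Δ) t + 2000) := by
      refine intervalIntegral.integral_mono_on hT0.le (hc1.intervalIntegrable _ _)
        (Continuous.intervalIntegrable (continuous_const.mul (hc2.add continuous_const)) _ _) fun x hx => ?_
      have h6 := fe_p (τ := x) (X := T) one_pos le_rfl hΔ0.le (by linarith) hT1.le (by
        rw [abs_of_nonneg hx.1]; exact hx.2)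
      rw [one_mul, Real.rpow_one, Real.rpow_one] at h6
      refine h6.trans (mul_le_mul_of_nonneg_right hX ?_)
      have := zn_nonneg (1 / 2 + Δ) x
      positivity
    refine h5.trans ?_
    rw [intervalIntegral.integral_const_mul, intervalIntegral.integral_add (hc2.intervalIntegrable _ _)
      intervalIntegrable_const, intervalIntegral.integral_const, smul_eq_mul, sub_zero]
    refine le_trans (mul_le_mul_of_nonneg_left ?_ hE10.le) hfin
    linarith

end Pool.Agent.H362.LD
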