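import Pool.Agent.H362.LD.Stm
import Pool.Graph.R_seed8.Y745.LD.DefsB

set_option autoImplicit false

/-! The crude upper bound for zeta near the critical line (job ZUP of project LD), from the two
statements `S_MOM` and `S_DISC`. -/

namespace Pool.Agent.H362.LD

open MeasureTheory Filter Topology Set Metric Pool.Agent.H306R2 Pool.Agent.W184 Pool.Agent.W354.ZP

/-- `|ζ(σ+iu)|` as an extended nonnegative number -/
noncomputable def Az (σ u : ℝ) : ENNReal := ENNReal.ofReal (zn σ u)

/-- `|ζ|` as an extended nonnegative number -/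
noncomputable def Gz (z : ℂ) : ENNReal := ENNReal.ofReal ‖riemannZeta z‖

lemma Gz_meas : Measurable Gz := by
  have := zeta_meas.norm
  unfold Gz
  fun_prop

lemma rect_eqZ (δ T : ℝ) : ∫⁻ z in Rect δ T, Gz z =
    ∫⁻ σ in Ioo (1 / 2 - δ) (1 / 2 + δ), ∫⁻ u in Ioo 0 T, Az σ u := by
  rw [← lintegral_indicator (Rect_meas δ T)]
  rw [← (Complex.volume_preserving_equiv_real_prod.symm).lintegral_comp_emb
    Complex.measurableEquivRealProd.symm.measurableEmbedding]
  have e1 : ∀ q : ℝ × ℝ, (Rect δ T).indicator Gz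
      (Complex.measurableEquivRealProd.symm q) =
      (Ioo (1 / 2 - δ) (1 / 2 + δ) ×ˢ Ioo 0 T).indicator (fun q : ℝ × ℝ => Az q.1 q.2) q := by
    intro q
    have e2 : Complex.measurableEquivRealProd.symm q = (q.1 : ℂ) + q.2 * Complex.I := by
      apply Complex.ext <;> simp
    have e3 : (Complex.measurableEquivRealProd.symm q ∈ Rect δ T) ↔
        q ∈ Ioo (1 / 2 - δ) (1 / 2 + δ) ×ˢ Ioo 0 T := by
      rw [e2]
      simp [Rect]
    by_cases h : q ∈ Ioo (1 / 2 - δ) (1 / 2 + δ) ×ˢ Ioo 0 T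
    · rw [indicator_of_mem h, indicator_of_mem (e3.mpr h), e2]
      rfl
    · rw [indicator_of_notMem h, indicator_of_notMem (fun h' => h (e3.mp h'))]
  simp_rw [e1]
  rw [lintegral_indicator (measurableSet_Ioo.prod measurableSet_Ioo), Measure.volume_eq_prod,
    ← Measure.prod_restrict, lintegral_prod]
  refine Measurable.aemeasurable ?_
  have : (fun q : ℝ × ℝ => Az q.1 q.2) =
      Gz ∘ (fun q : ℝ × ℝ => (q.1 : ℂ) + q.2 * Complex.I) := by
    funext q; rfl
  rw [this]
  refine Gz_meas.comp ?_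
  fun_prop

lemma zn_cont {σ : ℝ} (h : σ < 1) : Continuous fun t => zn σ t := by
  have := zp_cont (σ := σ) (p := 1) h one_pos
  simpa using this

theorem area (hM : S_MOM) : ∀ᶠ X : ℝ in atTop, ∀ δ : ℝ, 1 / X ≤ δ → δ ≤ 10 / Real.log X →
    ∫⁻ z in Rect δ X, Gz z ≤ ENNReal.ofReal (4 * (X * Real.log X ^ 3 * δ)) := by
  filter_upwards [hM, Real.tendsto_log_atTop.eventually_ge_atTop 80, eventually_ge_atTop 100]
    with X hU hL hX δ hδ1 hδ2
  have hX0 : 0 < X := by linarith
  have hL0 : 0 < Real.log X := by linarith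
  have hδ0 : 0 < δ := lt_of_lt_of_le (by positivity) hδ1
  have hδ3 : δ ≤ 1 / 8 := by
    refine hδ2.trans ?_
    rw [div_le_div_iff₀ hL0 (by norm_num)]; linarith
  have hX3 : X ^ (-(3:ℝ)) = 1 / X ^ 3 := by
    rw [Real.rpow_neg hX0.le, one_div]
    congr 1
    exact_mod_cast Real.rpow_natCast X 3
  rw [rect_eqZ]
  set B1 : ENNReal := ENNReal.ofReal (24 * X ^ 2) with hB1
  set B2 : ENNReal := ENNReal.ofReal (X * Real.log X ^ 3) with hB2
  have hint : ∀ σ : ℝ, σ < 1 → ∫⁻ u in Ioo 0 X, Az σ u ≤ ENNReal.ofReal (∫ t in (0:ℝ)..X, zn σ t) := by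
    intro σ hσ
    unfold Az
    rw [← ofReal_integral_eq_lintegral_ofReal]
    · refine ENNReal.ofReal_le_ofReal ?_
      rw [← integral_Ioc_eq_integral_Ioo, ← intervalIntegral.integral_of_le hX0.le]
    · exact ((zn_cont hσ).integrableOn_Icc (a := 0) (b := X)).mono_set Ioo_subset_Icc_self
    · exact Eventually.of_forall fun u => zn_nonneg _ _
  have hpt : ∀ σ ∈ Ioo (1 / 2 - δ) (1 / 2 + δ), ∫⁻ u in Ioo 0 X, Az σ u ≤
      B2 + (Ioo (1 / 2 - X ^ (-(3:ℝ))) (1 / 2 + X ^ (-(3:ℝ)))).indicator (fun _ => B1) σ := by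
    intro σ hσ
    have a0 : |σ - 1 / 2| < δ := by rw [abs_lt]; constructor <;> linarith [hσ.1, hσ.2]
    have a1 := hint σ (by linarith [hσ.2])
    by_cases h : σ ∈ Ioo (1 / 2 - X ^ (-(3:ℝ))) (1 / 2 + X ^ (-(3:ℝ)))
    · rw [indicator_of_mem h]
      refine a1.trans (le_trans (ENNReal.ofReal_le_ofReal ?_) le_add_self)
      have a2 : ∫ t in (0:ℝ)..X, zn σ t ≤ (X - 0) * (12 * (1 + X)) := by
        refine int_le_of_le (zn_cont (by linarith [hσ.2])) hX0.le fun x hx => ?_
        have b := zp_le (x := x) (σ := σ) (p := 1) one_pos le_rfl (by linarith [hσ.1]) (by linarith [hσ.2])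
        rw [Real.rpow_one, abs_of_nonneg hx.1] at b
        refine b.trans ?_
        linarith [hx.2]
      nlinarith
    · rw [indicator_of_notMem h, add_zero]
      refine a1.trans (ENNReal.ofReal_le_ofReal ?_)
      have a2 : X ^ (-(3:ℝ)) ≤ |σ - 1 / 2| := by
        by_contra hc
        push Not at hc
        rw [abs_lt] at hc
        exact h ⟨by linarith [hc.1], by linarith [hc.2]⟩
      exact hU σ a2 (a0.le.trans hδ2)
  refine (setLIntegral_mono' measurableSet_Ioo hpt).trans ?_
  rw [lintegral_add_left measurable_const, setLIntegral_const, Real.volume_Ioo]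
  have hX3p : 0 < X ^ (-(3:ℝ)) := Real.rpow_pos_of_pos hX0 _
  have hind : ∫⁻ σ in Ioo (1 / 2 - δ) (1 / 2 + δ),
      (Ioo (1 / 2 - X ^ (-(3:ℝ))) (1 / 2 + X ^ (-(3:ℝ)))).indicator (fun _ => B1) σ ≤
      B1 * ENNReal.ofReal (2 * X ^ (-(3:ℝ))) := by
    refine (setLIntegral_le_lintegral _ _).trans ?_
    rw [lintegral_indicator measurableSet_Ioo, setLIntegral_const, Real.volume_Ioo]
    refine le_of_eq ?_
    congr 2; ring
  refine (add_le_add le_rfl hind).trans ?_
  have e2 : (1:ℝ) / 2 + δ - (1 / 2 - δ) = 2 * δ := by ring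
  rw [hB1, hB2, e2, ← ENNReal.ofReal_mul (by positivity), ← ENNReal.ofReal_mul (by positivity),
    ← ENNReal.ofReal_add (by positivity) (by positivity)]
  refine ENNReal.ofReal_le_ofReal ?_
  rw [hX3]
  have a1 : 24 * X ^ 2 * (2 * (1 / X ^ 3)) = 48 / X := by
    field_simp
    norm_num
  have a2 : 1 ≤ X * δ := by
    have := mul_le_mul_of_nonneg_left hδ1 hX0.le
    rwa [mul_one_div_cancel hX0.ne'] at this
  have a3 : 48 / X ≤ 1 := by rw [div_le_one hX0]; linarith
  have a4 : (1:ℝ) ≤ Real.log X ^ 3 := one_le_pow₀ (by linarith)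
  rw [a1]
  have a5 : 1 * 1 ≤ (X * δ) * Real.log X ^ 3 := mul_le_mul a2 a4 zero_le_one (by positivity)
  nlinarith

/-- the integrand of the averaging over `t` -/
noncomputable def Hz (r : ℝ) (t : ℝ) (w : ℂ) : ENNReal :=
  {p : ℝ × ℂ | |p.2.im - p.1| < r}.indicator (fun p => Gz p.2) (t, w)

lemma Hz_meas (r : ℝ) : Measurable (Function.uncurry (Hz r)) := by
  have hs : MeasurableSet {p : ℝ × ℂ | |p.2.im - p.1| < r} := by
    refine (isOpen_lt ?_ continuous_const).measurableSet
    fun_prop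
  exact (Gz_meas.comp measurable_snd).indicator hs

/-- the averaged function -/
noncomputable def Fz (r X t : ℝ) : ENNReal := ∫⁻ w in Rect r X, Hz r t w

lemma Fz_meas (r X : ℝ) : Measurable (Fz r X) := by
  unfold Fz
  exact Measurable.lintegral_prod_right (Hz_meas r)

lemma Fz_int (r X : ℝ) (hr : 0 < r) :
    ∫⁻ t, Fz r X t ≤ ENNReal.ofReal (2 * r) * ∫⁻ w in Rect r X, Gz w := by
  unfold Fz
  rw [lintegral_lintegral_swap (Hz_meas r).aemeasurable, ← lintegral_const_mul _ Gz_meas]
  refine lintegral_mono fun w => ?_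
  have : ∀ t, Hz r t w = (Ioo (w.im - r) (w.im + r)).indicator (fun _ => Gz w) t := by
    intro t
    unfold Hz
    by_cases h : t ∈ Ioo (w.im - r) (w.im + r)
    · rw [indicator_of_mem h, indicator_of_mem]
      show |w.im - t| < r
      rw [abs_lt]
      constructor <;> linarith [h.1, h.2]
    · rw [indicator_of_notMem h, indicator_of_notMem]
      intro h2
      have h2 : |w.im - t| < r := h2
      rw [abs_lt] at h2
      exact h ⟨by linarith [h2.2], by linarith [h2.1]⟩
  simp_rw [this]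
  rw [lintegral_indicator measurableSet_Ioo, setLIntegral_const, Real.volume_Ioo, mul_comm]
  gcongr
  linarith

lemma ball_le (r X t : ℝ) (h1 : r ≤ t) (h2 : t + r ≤ X) :
    ∫⁻ w in ball ((1:ℂ) / 2 + t * Complex.I) r, Gz w ≤ Fz r X t := by
  unfold Fz
  have hc : ∀ w ∈ ball ((1:ℂ) / 2 + t * Complex.I) r, |w.re - 1 / 2| < r ∧ |w.im - t| < r := by
    intro w hw
    rw [mem_ball, dist_eq_norm] at hw
    have e1 : (w - ((1:ℂ) / 2 + t * Complex.I)).re = w.re - 1 / 2 := by simp
    have e2 : (w - ((1:ℂ) / 2 + t * Complex.I)).im = w.im - t := by simp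
    constructor
    · rw [← e1]; exact (Complex.abs_re_le_norm _).trans_lt hw
    · rw [← e2]; exact (Complex.abs_im_le_norm _).trans_lt hw
  have hsub : ball ((1:ℂ) / 2 + t * Complex.I) r ⊆ Rect r X := by
    intro w hw
    obtain ⟨a, b⟩ := hc w hw
    rw [abs_lt] at a b
    exact ⟨⟨by linarith [a.1], by linarith [a.2]⟩, ⟨by linarith [b.1], by linarith [b.2]⟩⟩
  refine le_trans (le_of_eq ?_) (lintegral_mono_set hsub)
  refine setLIntegral_congr_fun measurableSet_ball fun w hw => ?_
  unfold Hz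
  rw [indicator_of_mem]
  exact (hc w hw).2

theorem zup (hM : S_MOM) (hD : S_DISC) : Pool.Agent.Y745.LD.P_ZUP := by
  intro A' hA'
  refine ⟨A' + 4, by linarith, ?_⟩
  have h3 : Tendsto (fun T : ℝ => 3 * T) atTop atTop := tendsto_id.const_mul_atTop (by norm_num)
  have hlogT : ∀ᶠ T : ℝ in atTop, Real.log T ≤ T := by
    filter_upwards [eventually_gt_atTop (0:ℝ)] with T hT
    linarith [Real.log_le_sub_one_of_pos hT]
  filter_upwards [h3.eventually (area hM), Real.tendsto_log_atTop.eventually_ge_atTop 800,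
    eventually_ge_atTop (10 : ℝ), hlogT] with T hA hL hT hlT
  set L := Real.log T with hLd
  have hT0 : 0 < T := by linarith
  have hL0 : 0 < L := by linarith
  have hL3 : Real.log (3 * T) ≤ 2 * L := by
    rw [Real.log_mul (by norm_num) hT0.ne']
    have : Real.log 3 ≤ Real.log T := Real.log_le_log (by norm_num) (by linarith)
    linarith
  have hL3' : 0 < Real.log (3 * T) := Real.log_pos (by linarith)
  have hLe : L ≤ Real.log (3 * T) := Real.log_le_log hT0 (by linarith)
  set r : ℝ := 2 / L with hr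
  have hr0 : 0 < r := by positivity
  have hr1 : r ≤ 1 / 2 := by
    rw [hr, div_le_div_iff₀ hL0 (by norm_num)]; linarith
  have hA2 := hA r (by
    rw [hr, div_le_div_iff₀ (by positivity) hL0]; linarith) (by
    rw [hr, div_le_div_iff₀ hL0 hL3']; linarith)
  set K : ℝ := L ^ (A' + 2) with hK
  have hK0 : 0 < K := Real.rpow_pos_of_pos hL0 _
  refine ⟨Icc T (2 * T) ∩ {t | ENNReal.ofReal K < Fz r (3 * T) t}, ?_, inter_subset_left, ?_, ?_⟩
  · exact measurableSet_Icc.inter (measurableSet_lt measurable_const (Fz_meas _ _))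
  · -- Markov
    have hm : volume {t | ENNReal.ofReal K < Fz r (3 * T) t} ≤
        ENNReal.ofReal (2 * r * (4 * (3 * T * Real.log (3 * T) ^ 3 * r))) / ENNReal.ofReal K := by
      have hss : {t | ENNReal.ofReal K < Fz r (3 * T) t} ⊆ {t | ENNReal.ofReal K ≤ Fz r (3 * T) t} := by
        intro t ht
        have ht : ENNReal.ofReal K < Fz r (3 * T) t := ht
        exact ht.le
      refine le_trans (measure_mono hss) ?_
      refine (meas_ge_le_lintegral_div (Fz_meas r (3 * T)).aemeasurable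
        (by simpa using hK0) ENNReal.ofReal_ne_top).trans ?_
      refine ENNReal.div_le_div_right ?_ _
      refine (Fz_int r (3 * T) hr0).trans ?_
      rw [ENNReal.ofReal_mul (p := 2 * r) (by positivity)]
      gcongr
    rw [← ENNReal.ofReal_div_of_pos hK0] at hm
    have hm2 : volume (Icc T (2 * T) ∩ {t | ENNReal.ofReal K < Fz r (3 * T) t}) ≤
        ENNReal.ofReal (2 * r * (4 * (3 * T * Real.log (3 * T) ^ 3 * r)) / K) :=
      (measure_mono inter_subset_right).trans hm
    have hm3 : volume.real (Icc T (2 * T) ∩ {t | ENNReal.ofReal K < Fz r (3 * T) t}) ≤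
        2 * r * (4 * (3 * T * Real.log (3 * T) ^ 3 * r)) / K := by
      refine ENNReal.toReal_le_of_le_ofReal (by positivity) hm2
    refine hm3.trans ?_
    have hLA : 0 < L ^ A' := Real.rpow_pos_of_pos hL0 _
    have e3 : K = L ^ A' * L ^ 2 := by
      rw [hK, Real.rpow_add hL0]
      norm_cast
    rw [div_le_div_iff₀ hK0 hLA, e3]
    have h5 : Real.log (3 * T) ^ 3 ≤ (2 * L) ^ 3 := by gcongr
    have h6 : 2 * r * (4 * (3 * T * Real.log (3 * T) ^ 3 * r)) ≤ T * L ^ 2 := by
      calc 2 * r * (4 * (3 * T * Real.log (3 * T) ^ 3 * r)) ≤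
          2 * r * (4 * (3 * T * (2 * L) ^ 3 * r)) := by gcongr
        _ = 192 * T * L ^ 3 * r ^ 2 := by ring
        _ = 768 * T * L := by
          rw [hr]; field_simp; ring
        _ ≤ _ := by nlinarith [mul_pos hT0 hL0]
    calc 2 * r * (4 * (3 * T * Real.log (3 * T) ^ 3 * r)) * L ^ A' ≤ T * L ^ 2 * L ^ A' := by gcongr
      _ = _ := by ring
  · intro t ht htE z hz
    have htI : t ∈ Icc T (2 * T) := ⟨by linarith [ht.1], by linarith [ht.2]⟩
    have hF : Fz r (3 * T) t ≤ ENNReal.ofReal K := by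
      by_contra hc
      push Not at hc
      exact htE ⟨htI, hc⟩
    have hz2 : |z.im - t| ≤ 1 / L := by
      have e2 : (z - ((1:ℂ) / 2 + t * Complex.I)).im = z.im - t := by simp
      rw [← e2]
      exact (Complex.abs_im_le_norm _).trans hz
    have hL1 : 1 / L ≤ 1 / 4 := by
      rw [div_le_div_iff₀ hL0 (by norm_num)]; linarith
    have hcb : closedBall z (1 / L) ⊆ ({1}ᶜ : Set ℂ) := by
      intro w hw hw1
      rw [mem_singleton_iff] at hw1
      rw [mem_closedBall, dist_eq_norm] at hw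
      have h8 := (Complex.abs_im_le_norm (w - z)).trans hw
      rw [hw1] at h8
      simp only [Complex.sub_im, Complex.one_im] at h8
      have h9 := abs_le.1 h8
      have h10 := abs_le.1 hz2
      linarith [h9.1, h10.1, ht.1]
    have h7 := hD riemannZeta ({1}ᶜ) isOpen_compl_singleton
      (fun w hw => (differentiableAt_riemannZeta hw).differentiableWithinAt) zeta_meas z (1 / L)
      (by positivity) hcb
    have hbs : ball z (1 / L) ⊆ ball ((1:ℂ) / 2 + t * Complex.I) r := by
      intro w hw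
      rw [mem_ball, dist_eq_norm] at hw ⊢
      calc ‖w - ((1:ℂ) / 2 + t * Complex.I)‖ = ‖(w - z) + (z - ((1:ℂ) / 2 + t * Complex.I))‖ := by
            congr 1; ring
        _ ≤ ‖w - z‖ + ‖z - ((1:ℂ) / 2 + t * Complex.I)‖ := norm_add_le _ _
        _ < 1 / L + 1 / L := by linarith
        _ = r := by rw [hr]; ring
    have h8 : ENNReal.ofReal ((1 / L) ^ 2 * ‖riemannZeta z‖) ≤ ENNReal.ofReal K := by
      refine h7.trans ((lintegral_mono_set hbs).trans (le_trans ?_ hF))
      exact ball_le r (3 * T) t (by linarith [ht.1]) (by linarith [ht.2])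
    have h9 := (ENNReal.ofReal_le_ofReal_iff hK0.le).1 h8
    have e4 : L ^ (A' + 4) = K * L ^ 2 := by
      rw [hK, show A' + 4 = (A' + 2) + (2 : ℕ) by push_cast; ring, Real.rpow_add hL0,
        Real.rpow_natCast]
    rw [e4]
    have h10 : (1 / L) ^ 2 * ‖riemannZeta z‖ * L ^ 2 ≤ K * L ^ 2 := by gcongr
    calc ‖riemannZeta z‖ = (1 / L) ^ 2 * ‖riemannZeta z‖ * L ^ 2 := by
          field_simp
      _ ≤ _ := h10

end Pool.Agent.H362.LD
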