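import Pool.Agent.H362.LD.Asm
import Pool.Agent.H362.LD.G1M
import Pool.Agent.H362.LD.Zup
import Pool.Agent.H362.LD.Mom
import Pool.Agent.H227.LD362.Disc

set_option autoImplicit false

/-! Large deviations of the derivative at simple zeros: the conclusions in terms of zeros of zeta. -/

namespace Pool.Agent.H362.LD

open Filter Topology MeasureTheory Complex H370 Pool.Agent.Y745.SW Pool.Agent.Y745.LD

theorem t_ZUP : P_ZUP := zup t_MOM Pool.Agent.H227.LD362.t_DISC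

/-- the simple zeros on the critical line with ordinate in `(T, 2T]`, at distance at least `d / log T`
from every other nontrivial zero, at which `|ζ'|` is between `(log T) ^ (1 + κ ∓ ε)` -/
def Sz (d κ ε T : ℝ) : Set ℂ := {s : ℂ | riemannZeta s = 0 ∧ s.re = 1 / 2 ∧ T < s.im ∧ s.im ≤ 2 * T ∧
  deriv riemannZeta s ≠ 0 ∧
  (∀ ρ : ℂ, riemannZeta ρ = 0 → 0 < ρ.re → ρ.re < 1 → ρ ≠ s → d / Real.log T ≤ ‖ρ - s‖) ∧
  Real.log T ^ (1 + κ - ε) ≤ ‖deriv riemannZeta s‖ ∧ ‖deriv riemannZeta s‖ ≤ Real.log T ^ (1 + κ + ε)}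

lemma Sz_finite (d κ ε T : ℝ) : (Sz d κ ε T).Finite := by
  rcases le_or_gt T 0 with hT | hT
  · refine Set.Finite.subset Set.finite_empty fun s hs => ?_
    have := hs.2.2.1
    have := hs.2.2.2.1
    linarith
  · refine (H370.zeta_zeros_finite (2 * T)).subset fun s hs => ?_
    obtain ⟨h1, h2, h3, h4, -⟩ := hs
    exact ⟨by rw [h2]; norm_num, by rw [h2]; norm_num, by linarith, h4, h1⟩

lemma Sz_mono {d κ κ' ε ε' T : ℝ} (hT : 1 ≤ Real.log T) (h1 : κ' - ε' ≥ κ - ε) (h2 : κ' + ε' ≤ κ + ε) :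
    Sz d κ' ε' T ⊆ Sz d κ ε T := by
  rintro s ⟨a1, a2, a3, a4, a5, a6, a7, a8⟩
  refine ⟨a1, a2, a3, a4, a5, a6, le_trans ?_ a7, a8.trans ?_⟩
  · exact Real.rpow_le_rpow_of_exponent_le hT (by linarith)
  · exact Real.rpow_le_rpow_of_exponent_le hT (by linarith)

/-- the count for one `κ` -/
theorem core : ∃ d : ℝ, 0 < d ∧ ∀ κ ε : ℝ, 0 < ε → ∀ᶠ T : ℝ in atTop,
    T * Real.log T ^ (1 - κ ^ 2 - ε) ≤ ((Sz d κ ε T).ncard : ℝ) := by
  classical
  obtain ⟨δ, hδ, hδ1, h⟩ := count t_G1M t_ZUP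
  refine ⟨δ, hδ, fun κ ε hε => ?_⟩
  filter_upwards [h κ ε hε, eventually_ge_atTop 10,
    Real.tendsto_log_atTop.eventually_ge_atTop 1] with T hT hT1 hL1
  obtain ⟨U1, U2, hU1, hU1', hU2, hU2', hc⟩ := hT
  refine hc.trans ?_
  set L := Real.log T with hL
  have hT0 : 0 < T := by linarith
  have hL0 : 0 < L := by linarith
  rw [← Set.ncard_coe_finset]
  have : ((((isoS U1 U2 (δ / L)).filter (fun s => T + 2 ≤ s.im ∧ s.im ≤ 2 * T - 2 ∧
        |Real.log ‖deriv riemannZeta s‖ - (1 + κ) * LL T| ≤ ε * LL T)) : Finset ℂ) : Set ℂ) ⊆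
      Sz δ κ ε T := by
    intro s hs
    rw [Finset.mem_coe, Finset.mem_filter] at hs
    obtain ⟨hsI, hs1, hs2, hs3⟩ := hs
    unfold isoS at hsI
    rw [Finset.mem_filter] at hsI
    obtain ⟨hsZ, hre, hmul, hiso⟩ := hsI
    have hsz := (mem_Zf good_zeta (by linarith : 1 ≤ U1)).mp hsZ
    have hs0 : riemannZeta s = 0 := hsz.2.2.2.2
    have hsne : s ≠ 1 := by
      intro h1
      rw [h1] at hre
      norm_num at hre
    have hd : deriv riemannZeta s ≠ 0 := Pool.Agent.Y141.SW.deriv_ne_of_simple hsne hs0 hmul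
    have hdp : 0 < ‖deriv riemannZeta s‖ := norm_pos_iff.2 hd
    have hLL : LL T = Real.log L := rfl
    have h3 := abs_le.1 hs3
    rw [hLL] at h3
    refine ⟨hs0, hre, by linarith, by linarith, hd, ?_, ?_, ?_⟩
    · intro s' h2 h3 h4 h5
      by_contra hcon
      push Not at hcon
      have h6 : δ / L ≤ 1 := by rw [div_le_one hL0]; linarith
      have h7 : ‖s' - s‖ < 1 := by linarith
      have h8 := (Complex.abs_im_le_norm _).trans_lt h7
      rw [Complex.sub_im, abs_lt] at h8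
      have h9 : s' ∈ Zf riemannZeta U1 U2 :=
        (mem_Zf good_zeta (by linarith : 1 ≤ U1)).mpr ⟨h3, h4, by linarith [h8.1], by linarith [h8.2], h2⟩
      have h10 := hiso s' h9 h5
      rw [norm_sub_rev] at h10
      linarith
    · rw [← Real.log_le_log_iff (Real.rpow_pos_of_pos hL0 _) hdp, Real.log_rpow hL0]
      linarith [h3.1]
    · rw [← Real.log_le_log_iff hdp (Real.rpow_pos_of_pos hL0 _), Real.log_rpow hL0]
      linarith [h3.2]
  exact_mod_cast Set.ncard_le_ncard this (Sz_finite _ _ _ _)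

/-- the count, uniformly for bounded `κ` -/
theorem unif : ∃ d : ℝ, 0 < d ∧ ∀ A ε : ℝ, 0 < ε → ∀ᶠ T : ℝ in atTop, ∀ κ : ℝ, |κ| ≤ A →
    T * Real.log T ^ (1 - κ ^ 2 - ε) ≤ ((Sz d κ ε T).ncard : ℝ) := by
  obtain ⟨d, hd, h⟩ := core
  refine ⟨d, hd, fun A ε hε => ?_⟩
  by_cases hA : A < 0
  · exact Eventually.of_forall fun T κ hκ => absurd (hκ.trans_lt hA) (not_lt.2 (abs_nonneg _))
  push Not at hA
  set η : ℝ := min 1 (ε / (4 * (A + 1))) with hη
  have hη0 : 0 < η := by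
    rw [hη, lt_min_iff]
    exact ⟨one_pos, by positivity⟩
  have hη2 : η ≤ 1 := min_le_left _ _
  have hη1 : η * (4 * (A + 1)) ≤ ε := by
    have h1 : η ≤ ε / (4 * (A + 1)) := min_le_right _ _
    rwa [le_div_iff₀ (by positivity)] at h1
  obtain ⟨N, hN⟩ := exists_nat_ge (A / η + 1)
  have hev : ∀ᶠ T : ℝ in atTop, ∀ j ∈ Finset.Icc (-(N:ℤ)) N,
      T * Real.log T ^ (1 - ((j:ℝ) * η) ^ 2 - ε / 2) ≤ ((Sz d ((j:ℝ) * η) (ε / 2) T).ncard : ℝ) := by
    rw [Filter.eventually_all_finset]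
    intro j _
    exact h ((j:ℝ) * η) (ε / 2) (by positivity)
  filter_upwards [hev, eventually_ge_atTop 10, Real.tendsto_log_atTop.eventually_ge_atTop 1]
    with T h1 hT1 hL1 κ hκ
  have hκ' := abs_le.1 hκ
  have hT0 : 0 < T := by linarith
  set j : ℤ := ⌊κ / η⌋ with hj
  have hj1 : (j:ℝ) * η ≤ κ := by
    have := Int.floor_le (κ / η)
    rwa [le_div_iff₀ hη0] at this
  have hj2 : κ < ((j:ℝ) + 1) * η := by
    have := Int.lt_floor_add_one (κ / η)
    rwa [div_lt_iff₀ hη0] at this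
  have hmem : j ∈ Finset.Icc (-(N:ℤ)) N := by
    rw [Finset.mem_Icc]
    have hA' : A = A / η * η := by field_simp
    constructor
    · have h2 : (-(N:ℝ)) ≤ j := by
        by_contra hc
        push Not at hc
        have h3 : ((j:ℝ) + 1) * η ≤ (-(A / η)) * η := mul_le_mul_of_nonneg_right (by linarith) hη0.le
        linarith
      exact_mod_cast h2
    · have h2 : (j:ℝ) ≤ N := by
        by_contra hc
        push Not at hc
        have h3 : (A / η + 1) * η ≤ (j:ℝ) * η := mul_le_mul_of_nonneg_right (by linarith) hη0.le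
        linarith
      exact_mod_cast h2
  have h2 := h1 j hmem
  set κ' : ℝ := (j:ℝ) * η with hκd
  have hηε : η ≤ ε / 4 := by nlinarith
  have h3 : |κ - κ'| ≤ η := by rw [abs_le]; constructor <;> linarith
  have h3' := abs_le.1 h3
  have h4 : κ' ^ 2 - κ ^ 2 ≤ ε / 2 := by
    have e : κ' ^ 2 - κ ^ 2 = (κ' - κ) * (κ' + κ) := by ring
    have h5 : |κ' + κ| ≤ 2 * A + η := by
      rw [abs_le]; constructor <;> linarith
    have h6 : (κ' - κ) * (κ' + κ) ≤ η * (2 * A + η) := by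
      calc (κ' - κ) * (κ' + κ) ≤ |(κ' - κ) * (κ' + κ)| := le_abs_self _
        _ = |κ - κ'| * |κ' + κ| := by rw [abs_mul, abs_sub_comm]
        _ ≤ _ := mul_le_mul h3 h5 (abs_nonneg _) hη0.le
    rw [e]
    have : η * (2 * A + η) ≤ η * (2 * A + 1) := by gcongr
    nlinarith
  calc T * Real.log T ^ (1 - κ ^ 2 - ε) ≤ T * Real.log T ^ (1 - κ' ^ 2 - ε / 2) := by
        refine mul_le_mul_of_nonneg_left ?_ hT0.le
        exact Real.rpow_le_rpow_of_exponent_le hL1 (by linarith)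
    _ ≤ _ := h2
    _ ≤ _ := by
        exact_mod_cast Set.ncard_le_ncard (Sz_mono hL1 (by linarith) (by linarith)) (Sz_finite _ _ _ _)

end Pool.Agent.H362.LD
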