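import Pool.Graph.R_seed8.W354.ZP.Area
import Pool.Graph.R_seed8.Y674.LD.Z3
import Pool.Graph.R_seed8.Y141.SW.Pois

set_option autoImplicit false

/-! Statements for the crude upper bound of zeta near the critical line (project LD). -/

namespace Pool.Agent.H362.LD

open MeasureTheory Filter Topology Set Metric Pool.Agent.H306R2 Pool.Agent.W184 Pool.Agent.W354.ZP

/-- first moment near the critical line -/
def S_MOM : Prop := ∀ᶠ X : ℝ in atTop, ∀ σ : ℝ, X ^ (-(3:ℝ)) ≤ |σ - 1 / 2| →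
  |σ - 1 / 2| ≤ 10 / Real.log X → ∫ t in (0:ℝ)..X, zn σ t ≤ X * Real.log X ^ 3

/-- value at the centre and area integral -/
def S_DISC : Prop := ∀ (f : ℂ → ℂ) (U : Set ℂ), IsOpen U → DifferentiableOn ℂ f U → Measurable f →
  ∀ (z : ℂ) (r : ℝ), 0 < r → closedBall z r ⊆ U →
    ENNReal.ofReal (r ^ 2 * ‖f z‖) ≤ ∫⁻ w in ball z r, ENNReal.ofReal ‖f w‖

end Pool.Agent.H362.LD
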